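import Pool.Agent.U866.OM.Stm

set_option autoImplicit false

/-!
# Project OM, package IBP: integration by parts for graphs
-/

open scoped BigOperators ContDiff Topology Matrix
open MeasureTheory Filter Metric
open Pool.Agent.H498R3.GB (E pd pd_add pd_mul pd_const pd_const_mul pd_of_hasFDerivAt diff_of)
open Pool.Agent.U866.OM

namespace Pool.Agent.U278.OM

variable {m : ℕ}

theorem smooth_pd {f : E m → ℝ} (hf : ContDiff ℝ ∞ f) (i : Fin m) : ContDiff ℝ ∞ (pd i f) := by
  unfold pd
  exact (hf.fderiv_right (m := ∞) (by simp)).clm_apply contDiff_const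

theorem pd_sum' {ι : Type} (s : Finset ι) {f : ι → E m → ℝ} {x : E m}
    (hf : ∀ k ∈ s, DifferentiableAt ℝ (f k) x) (i : Fin m) :
    pd i (fun z => ∑ k ∈ s, f k z) x = ∑ k ∈ s, pd i (f k) x := by
  unfold pd
  rw [fderiv_fun_sum hf]
  simp

theorem pd_sub' {f g : E m → ℝ} {x : E m} (hf : DifferentiableAt ℝ f x)
    (hg : DifferentiableAt ℝ g x) (i : Fin m) :
    pd i (fun z => f z - g z) x = pd i f x - pd i g x := by
  unfold pd
  rw [fderiv_fun_sub hf hg]
  rfl

theorem pd_comm' {f : E m → ℝ} (hf : ContDiff ℝ ∞ f) (i j : Fin m) (x : E m) :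
    pd i (pd j f) x = pd j (pd i f) x := by
  have h2 : IsSymmSndFDerivAt ℝ f x :=
    (hf.contDiffAt (x := x)).isSymmSndFDerivAt (by
      rw [minSmoothness_of_isRCLikeNormedField]
      exact WithTop.coe_le_coe.mpr le_top)
  have hd : DifferentiableAt ℝ (fderiv ℝ f) x :=
    ((hf.fderiv_right (m := ∞) (by simp)).differentiable (by simp)) x
  have key : ∀ a b : Fin m, pd a (pd b f) x =
      fderiv ℝ (fderiv ℝ f) x (EuclideanSpace.single a 1) (EuclideanSpace.single b 1) := by
    intro a b
    unfold pd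
    have := fderiv_clm_apply (𝕜 := ℝ) (c := fderiv ℝ f)
      (u := fun _ : E m => (EuclideanSpace.single b (1 : ℝ) : E m)) (x := x) hd
      (differentiableAt_const _)
    rw [this]
    simp
  rw [key, key]
  exact h2 _ _

theorem int_pd_zero {F : E m → ℝ} (hF : ContDiff ℝ ∞ F) (hc : HasCompactSupport F) (j : Fin m) :
    ∫ x, pd j F x = 0 := by
  have hi : Integrable (fun x => pd j F x) := by
    refine (smooth_pd hF j).continuous.integrable_of_hasCompactSupport ?_
    unfold pd
    exact hc.fderiv_apply (𝕜 := ℝ) _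
  have hiF : Integrable F := hF.continuous.integrable_of_hasCompactSupport hc
  have := integral_mul_fderiv_eq_neg_fderiv_mul_of_integrable (μ := (volume : Measure (E m)))
    (f := fun _ : E m => (1 : ℝ)) (g := F) (v := EuclideanSpace.single j 1)
    (by simp) (by simpa [pd] using hi) (by simpa using hiF)
    (fun x _ => differentiableAt_const _) (fun x _ => diff_of hF x)
  simpa [pd] using this

/-- the vector field -/
noncomputable def Y (v : E m → ℝ) (j : Fin m) (x : E m) : ℝ :=
  ∑ i, (A v x i i * p v x j - A v x i j * p v x i)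

theorem smooth_p {v : E m → ℝ} (hv : ContDiff ℝ ∞ v) (i : Fin m) :
    ContDiff ℝ ∞ (fun x => p v x i) := smooth_pd hv i

theorem smooth_A {v : E m → ℝ} (hv : ContDiff ℝ ∞ v) (i j : Fin m) :
    ContDiff ℝ ∞ (fun x => A v x i j) := smooth_pd (smooth_pd hv j) i

theorem smooth_Y {v : E m → ℝ} (hv : ContDiff ℝ ∞ v) (j : Fin m) : ContDiff ℝ ∞ (Y v j) := by
  unfold Y
  exact ContDiff.sum fun i _ => ((smooth_A hv i i).mul (smooth_p hv j)).sub
    ((smooth_A hv i j).mul (smooth_p hv i))

theorem smooth_W2 {v : E m → ℝ} (hv : ContDiff ℝ ∞ v) : ContDiff ℝ ∞ (W2 v) := by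
  unfold W2
  exact contDiff_const.add (ContDiff.sum fun i _ => (smooth_p hv i).pow 2)

theorem W2_pos (v : E m → ℝ) (x : E m) : 0 < W2 v x := by
  unfold W2
  positivity

theorem A_symm {v : E m → ℝ} (hv : ContDiff ℝ ∞ v) (x : E m) (i j : Fin m) :
    A v x i j = A v x j i := pd_comm' hv i j x

theorem pd_W2 {v : E m → ℝ} (hv : ContDiff ℝ ∞ v) (j : Fin m) (x : E m) :
    pd j (W2 v) x = 2 * ∑ i, A v x j i * p v x i := by
  have e : W2 v = fun z => (1 : ℝ) + ∑ i, p v z i * p v z i := by
    funext z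
    unfold W2
    simp only [sq]
  have hp : ∀ i, ContDiff ℝ ∞ (fun z => p v z i * p v z i) := fun i =>
    (smooth_p hv i).mul (smooth_p hv i)
  rw [e, pd_add (differentiableAt_const _) (diff_of (ContDiff.sum fun i _ => hp i) x), pd_const,
    pd_sum' _ (fun i _ => diff_of (hp i) x), zero_add, Finset.mul_sum]
  refine Finset.sum_congr rfl fun i _ => ?_
  rw [pd_mul (diff_of (smooth_p hv i) x) (diff_of (smooth_p hv i) x)]
  have : pd j (fun z => p v z i) x = A v x j i := rfl
  rw [this]
  ring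

theorem pd_inv_sqrt {v : E m → ℝ} (hv : ContDiff ℝ ∞ v) (j : Fin m) (x : E m) :
    pd j (fun z => (√(W2 v z))⁻¹) x =
      - (∑ i, A v x j i * p v x i) / (W2 v x * √(W2 v x)) := by
  have hW := W2_pos v x
  have hs : 0 < √(W2 v x) := Real.sqrt_pos.mpr hW
  have h1 : HasDerivAt (fun w : ℝ => (√w)⁻¹) (-(1 / (2 * √(W2 v x))) / (√(W2 v x)) ^ 2)
      (W2 v x) := (Real.hasDerivAt_sqrt hW.ne').inv hs.ne'
  have h2 : HasFDerivAt (W2 v) (fderiv ℝ (W2 v) x) x := (diff_of (smooth_W2 hv) x).hasFDerivAt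
  have h3 := pd_of_hasFDerivAt (h1.comp_hasFDerivAt x h2) j
  simp only [Function.comp_def] at h3
  rw [h3]
  have h4 : fderiv ℝ (W2 v) x (EuclideanSpace.single j 1) = pd j (W2 v) x := rfl
  rw [smul_apply, h4, pd_W2 hv, Real.sq_sqrt hW.le, smul_eq_mul]
  field_simp

theorem smooth_isq {v : E m → ℝ} (hv : ContDiff ℝ ∞ v) :
    ContDiff ℝ ∞ (fun z => (√(W2 v z))⁻¹) := by
  refine ContDiff.inv ((smooth_W2 hv).sqrt fun x => (W2_pos v x).ne') fun x => ?_
  exact (Real.sqrt_pos.mpr (W2_pos v x)).ne'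

theorem pd_Y {v : E m → ℝ} (hv : ContDiff ℝ ∞ v) (j : Fin m) (x : E m) :
    pd j (Y v j) x = ∑ i, ((pd j (pd i (pd i v)) x * p v x j + A v x i i * A v x j j) -
      (pd j (pd i (pd j v)) x * p v x i + A v x i j * A v x j i)) := by
  unfold Y
  have h1 : ∀ i, ContDiff ℝ ∞ (fun z => A v z i i * p v z j) := fun i =>
    (smooth_A hv i i).mul (smooth_p hv j)
  have h2 : ∀ i, ContDiff ℝ ∞ (fun z => A v z i j * p v z i) := fun i =>
    (smooth_A hv i j).mul (smooth_p hv i)
  rw [pd_sum' _ (fun i _ => diff_of ((h1 i).sub (h2 i)) x)]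
  refine Finset.sum_congr rfl fun i _ => ?_
  rw [pd_sub' (diff_of (h1 i) x) (diff_of (h2 i) x),
    pd_mul (diff_of (smooth_A hv i i) x) (diff_of (smooth_p hv j) x),
    pd_mul (diff_of (smooth_A hv i j) x) (diff_of (smooth_p hv i) x)]
  have e1 : pd j (fun z => p v z j) x = A v x j j := rfl
  have e2 : pd j (fun z => p v z i) x = A v x j i := rfl
  have e3 : pd j (fun z => A v z i i) x = pd j (pd i (pd i v)) x := rfl
  have e4 : pd j (fun z => A v z i j) x = pd j (pd i (pd j v)) x := rfl
  rw [e1, e2, e3, e4]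
  ring

theorem div_Y {v : E m → ℝ} (hv : ContDiff ℝ ∞ v) (x : E m) :
    ∑ j, pd j (Y v j) x = S2 v x := by
  have hswap : ∑ j, ∑ i, pd j (pd i (pd j v)) x * p v x i =
      ∑ j, ∑ i, pd j (pd i (pd i v)) x * p v x j := by
    rw [Finset.sum_comm]
    refine Finset.sum_congr rfl fun j _ => Finset.sum_congr rfl fun i _ => ?_
    rw [pd_comm' (smooth_pd hv i) i j]
  have hfirst : ∑ j, ∑ i, A v x i i * A v x j j = (∑ i, A v x i i) ^ 2 := by
    rw [sq, Finset.sum_mul_sum, Finset.sum_comm]
  have hsecond : ∑ j, ∑ i, A v x i j * A v x j i = ∑ i, ∑ j, A v x i j ^ 2 := by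
    rw [Finset.sum_comm]
    refine Finset.sum_congr rfl fun i _ => Finset.sum_congr rfl fun j _ => ?_
    rw [A_symm hv x j i]
    ring
  calc ∑ j, pd j (Y v j) x = ∑ j, ∑ i, ((pd j (pd i (pd i v)) x * p v x j +
        A v x i i * A v x j j) - (pd j (pd i (pd j v)) x * p v x i + A v x i j * A v x j i)) :=
        Finset.sum_congr rfl fun j _ => pd_Y hv j x
    _ = (∑ j, ∑ i, pd j (pd i (pd i v)) x * p v x j + ∑ j, ∑ i, A v x i i * A v x j j) -
        (∑ j, ∑ i, pd j (pd i (pd j v)) x * p v x i + ∑ j, ∑ i, A v x i j * A v x j i) := by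
        simp only [Finset.sum_sub_distrib, Finset.sum_add_distrib]
    _ = S2 v x := by
        rw [hswap, hfirst, hsecond]
        unfold S2
        ring

theorem Y_A {v : E m → ℝ} (hv : ContDiff ℝ ∞ v) (x : E m) :
    ∑ j, Y v j x * (∑ i, A v x j i * p v x i) = Q v x := by
  have e : ∀ j, Y v j x = (∑ i, A v x i i) * p v x j - ∑ i, A v x j i * p v x i := by
    intro j
    unfold Y
    rw [Finset.sum_sub_distrib, Finset.sum_mul]
    congr 1
    refine Finset.sum_congr rfl fun i _ => ?_
    rw [A_symm hv x i j]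
  have e2 : ∀ j, (∑ i, A v x j i * p v x i) * p v x j = ∑ i, A v x j i * p v x j * p v x i := by
    intro j
    rw [Finset.sum_mul]
    refine Finset.sum_congr rfl fun i _ => ?_
    ring
  unfold Q
  simp only [e, sub_mul]
  rw [Finset.sum_sub_distrib]
  congr 1
  · rw [Finset.mul_sum]
    refine Finset.sum_congr rfl fun j _ => ?_
    rw [← e2 j]
    ring
  · refine Finset.sum_congr rfl fun j _ => ?_
    ring

theorem p_zero {v : E m → ℝ} {x : E m} (hx : x ∉ tsupport v) (i : Fin m) : p v x i = 0 := by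
  unfold p pd
  rw [fderiv_of_notMem_tsupport ℝ hx]
  rfl

theorem A_zero {v : E m → ℝ} {x : E m} (hx : x ∉ tsupport v) (i j : Fin m) : A v x i j = 0 := by
  have h1 : tsupport (pd j v) ⊆ tsupport v := by
    refine closure_minimal ?_ (isClosed_tsupport v)
    intro y hy
    by_contra h
    exact hy (p_zero h j)
  unfold A
  have h2 : x ∉ tsupport (pd j v) := fun h => hx (h1 h)
  unfold pd
  unfold pd at h2
  rw [fderiv_of_notMem_tsupport ℝ h2]
  rfl

/-- Package IBP. -/
theorem t_IBP : S_IBP := by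
  intro m v hv hc
  have hF : ∀ j, ContDiff ℝ ∞ (fun x => Y v j x * (√(W2 v x))⁻¹) := fun j =>
    (smooth_Y hv j).mul (smooth_isq hv)
  have hFc : ∀ j, HasCompactSupport (fun x => Y v j x * (√(W2 v x))⁻¹) := by
    intro j
    refine HasCompactSupport.intro hc fun x hx => ?_
    have : Y v j x = 0 := by
      unfold Y
      refine Finset.sum_eq_zero fun i _ => ?_
      rw [p_zero hx, p_zero hx]
      ring
    rw [this, zero_mul]
  have hpd : ∀ x, ∑ j, pd j (fun z => Y v j z * (√(W2 v z))⁻¹) x =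
      S2 v x / √(W2 v x) - Q v x / (W2 v x * √(W2 v x)) := by
    intro x
    have e : ∀ j, pd j (fun z => Y v j z * (√(W2 v z))⁻¹) x =
        pd j (Y v j) x * (√(W2 v x))⁻¹ -
          (Y v j x * (∑ i, A v x j i * p v x i)) / (W2 v x * √(W2 v x)) := by
      intro j
      rw [pd_mul (diff_of (smooth_Y hv j) x) (diff_of (smooth_isq hv) x), pd_inv_sqrt hv]
      ring
    simp only [e]
    rw [Finset.sum_sub_distrib, ← Finset.sum_mul, ← Finset.sum_div, div_Y hv, Y_A hv]
    ring
  have hS2c : Continuous (fun x => S2 v x) := by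
    unfold S2
    have hA := fun i j => (smooth_A hv i j).continuous
    fun_prop
  have hQc : Continuous (fun x => Q v x) := by
    unfold Q
    have hA := fun i j => (smooth_A hv i j).continuous
    have hp := fun i => (smooth_p hv i).continuous
    fun_prop
  have hWc : Continuous (fun x => W2 v x) := (smooth_W2 hv).continuous
  have i1 : Integrable (fun x => S2 v x / √(W2 v x)) := by
    refine Continuous.integrable_of_hasCompactSupport ?_ ?_
    · exact hS2c.div (hWc.sqrt) fun x => (Real.sqrt_pos.mpr (W2_pos v x)).ne'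
    · refine HasCompactSupport.intro hc fun x hx => ?_
      have : S2 v x = 0 := by
        unfold S2
        simp [A_zero hx]
      rw [this, zero_div]
  have i2 : Integrable (fun x => Q v x / (W2 v x * √(W2 v x))) := by
    refine Continuous.integrable_of_hasCompactSupport ?_ ?_
    · refine hQc.div (hWc.mul hWc.sqrt) fun x => ?_
      exact (mul_pos (W2_pos v x) (Real.sqrt_pos.mpr (W2_pos v x))).ne'
    · refine HasCompactSupport.intro hc fun x hx => ?_
      have : Q v x = 0 := by
        unfold Q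
        simp [A_zero hx]
      rw [this, zero_div]
  have hi : ∀ j, Integrable (fun x => pd j (fun z => Y v j z * (√(W2 v z))⁻¹) x) := by
    intro j
    refine (smooth_pd (hF j) j).continuous.integrable_of_hasCompactSupport ?_
    unfold pd
    exact (hFc j).fderiv_apply (𝕜 := ℝ) _
  have htot : ∫ x, (S2 v x / √(W2 v x) - Q v x / (W2 v x * √(W2 v x))) = 0 := by
    have e : (fun x => S2 v x / √(W2 v x) - Q v x / (W2 v x * √(W2 v x))) =
        fun x => ∑ j, pd j (fun z => Y v j z * (√(W2 v z))⁻¹) x := by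
      funext x
      rw [hpd x]
    rw [e, integral_finsetSum _ fun j _ => hi j]
    exact Finset.sum_eq_zero fun j _ => int_pd_zero (hF j) (hFc j) j
  rw [integral_sub i1 i2] at htot
  linarith

end Pool.Agent.U278.OM
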